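import Pool.Agent.Y451.AM.Stm

/-!
# Translation to the statement of the problem (adaptation of `Y473/FM/Fin`)
-/

set_option autoImplicit false
set_option linter.unusedSectionVars false

open MeasureTheory

noncomputable section

namespace Pool.Agent.Y366.AM

open Pool.Agent.Y451.AM

variable {Γ : Type} [Group Γ] [Countable Γ]

/-- The free part as a set. -/
def FS (Γ : Type) [Group Γ] : Set (Om Γ) := {x | ∀ g : Γ, (fun h => x (h * g)) = x → g = 1}

theorem meas_eval_eq (a b : Γ) : MeasurableSet {x : Om Γ | x a = x b} := by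
  have h : {x : Om Γ | x a = x b} = {x : Om Γ | ((x a : unitInterval) : ℝ) = (x b : ℝ)} := by
    ext x
    exact Subtype.ext_iff
  rw [h]
  exact measurableSet_eq_fun (measurable_subtype_coe.comp (measurable_pi_apply a))
    (measurable_subtype_coe.comp (measurable_pi_apply b))

theorem FS_eq : FS Γ = ⋂ g ∈ {g : Γ | g ≠ 1}, (⋂ h : Γ, {x | x (h * g) = x h})ᶜ := by
  ext x
  simp only [FS, Set.mem_ofPred_eq, Set.mem_iInter, Set.mem_compl_iff, not_forall]
  constructor
  · intro h g hg
    by_contra hcon
    push Not at hcon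
    exact hg (h g (funext hcon))
  · intro h g hg
    by_contra hcon
    obtain ⟨v, hv⟩ := h g hcon
    exact hv (congrFun hg v)

theorem meas_FS : MeasurableSet (FS Γ) := by
  rw [FS_eq]
  refine MeasurableSet.biInter (Set.to_countable _) fun g _ => ?_
  exact (MeasurableSet.iInter fun h => meas_eval_eq _ _).compl

theorem null_eq {g : Γ} (hg : g ≠ 1) : (PP Γ) {x : Om Γ | x g = x 1} = 0 := by
  have h1 : MeasurableSet {p : unitInterval × unitInterval | p.1 = p.2} := by
    have h : {p : unitInterval × unitInterval | p.1 = p.2} =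
        {p | ((p.1 : unitInterval) : ℝ) = (p.2 : ℝ)} := by
      ext x
      exact Subtype.ext_iff
    rw [h]
    exact measurableSet_eq_fun (measurable_subtype_coe.comp measurable_fst)
      (measurable_subtype_coe.comp measurable_snd)
  have h2 : (PP Γ).map (fun ω : Om Γ => (ω g, ω 1)) =
      (volume : Measure unitInterval).prod volume :=
    Measure.infinitePi_map_eval_prod hg
  have h3 : (PP Γ) {x : Om Γ | x g = x 1} =
      (PP Γ).map (fun ω : Om Γ => (ω g, ω 1)) {p | p.1 = p.2} := by
    rw [Measure.map_apply (by fun_prop) h1]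
    rfl
  rw [h3, h2, Measure.measure_prod_null h1]
  refine Filter.Eventually.of_forall fun x => ?_
  show (volume : Measure unitInterval) {y | x = y} = 0
  have h4 : {y : unitInterval | x = y} = {x} := by
    ext y
    exact eq_comm
  rw [h4]
  exact measure_singleton x

theorem null_FS : (PP Γ) (FS Γ)ᶜ = 0 := by
  rw [FS_eq, Set.compl_iInter₂, measure_biUnion_null_iff (Set.to_countable _)]
  intro g hg
  refine measure_mono_null ?_ (null_eq hg)
  intro x hx
  rw [compl_compl] at hx
  have h : x (1 * g) = x 1 := Set.mem_iInter.1 hx 1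
  rw [one_mul] at h
  exact h

theorem emb : MeasurableEmbedding (Subtype.val : Free Γ → Om Γ) :=
  MeasurableEmbedding.subtype_coe meas_FS

theorem range_val : Set.range (Subtype.val : Free Γ → Om Γ) = FS Γ :=
  Subtype.range_coe

theorem prob : IsProbabilityMeasure (bern Γ) := by
  constructor
  show Measure.comap (Subtype.val : Free Γ → Om Γ) (PP Γ) Set.univ = 1
  rw [emb.comap_apply, Set.image_univ, range_val]
  have h := prob_compl_eq_zero_iff (μ := PP Γ) meas_FS
  exact h.1 null_FS

theorem act : Act Γ (Free Γ) shF where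
  one := by
    intro x
    apply Subtype.ext
    funext h
    show x.1 (h * 1) = x.1 h
    rw [mul_one]
  mul := by
    intro g h x
    apply Subtype.ext
    funext v
    show x.1 (v * (g * h)) = x.1 (v * g * h)
    rw [mul_assoc]
  meas := by
    intro g
    refine Measurable.subtype_mk ?_
    refine measurable_pi_lambda _ fun v => ?_
    exact (measurable_pi_apply _).comp measurable_subtype_coe
  free := by
    intro g x h
    exact x.2 g (congrArg Subtype.val h)

theorem std : StandardBorelSpace (Free Γ) := (meas_FS (Γ := Γ)).standardBorel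

theorem pres (g : Γ) (hPR : MeasurePreserving (sh g) (PP Γ) (PP Γ)) :
    (bern Γ).map (shF g) = bern Γ := by
  ext s hs
  rw [Measure.map_apply (act.meas g) hs]
  show Measure.comap (Subtype.val : Free Γ → Om Γ) (PP Γ) _ =
    Measure.comap (Subtype.val : Free Γ → Om Γ) (PP Γ) _
  rw [emb.comap_apply, emb.comap_apply]
  have h1 : (Subtype.val '' (shF g ⁻¹' s) : Set (Om Γ)) = sh g ⁻¹' (Subtype.val '' s) := by
    ext x
    constructor
    · rintro ⟨y, hy, rfl⟩
      exact ⟨shF g y, hy, rfl⟩
    · rintro ⟨y, hy, hyx⟩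
      have h2 : (shF g⁻¹ y).1 = x := by
        funext h
        show y.1 (h * g⁻¹) = x h
        rw [hyx]
        show x (h * g⁻¹ * g) = x h
        rw [inv_mul_cancel_right]
      refine ⟨shF g⁻¹ y, ?_, h2⟩
      show shF g (shF g⁻¹ y) ∈ s
      rw [← act.mul, mul_inv_cancel, act.one]
      exact hy
  rw [h1]
  exact hPR.measure_preimage (emb.measurableSet_image.2 hs).nullMeasurableSet

theorem fin : S_FIN := by
  intro hST hLIM hPRD Γ _ _ hAm k W P
  obtain ⟨_, hPR, _⟩ := hPRD
  refine ⟨⟨prob, std, act, fun g => pres g (hPR Γ g)⟩, ?_⟩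
  rintro ⟨f0, hf0, hae⟩ X _ _ a hact μ _
  have hae' : ∀ᵐ x ∂(Measure.comap (Subtype.val : Free Γ → Om Γ) (PP Γ)),
    (fun g : {g : Γ // g ∈ W} => f0 (shF g.1 x)) ∈ P := hae
  have hprob := prob (Γ := Γ)
  have hne : Nonempty (Free Γ) := by
    by_contra hcon
    rw [not_nonempty_iff] at hcon
    have h1 := hprob.measure_univ
    rw [Set.univ_eq_empty_iff.2 hcon, measure_empty] at h1
    exact zero_ne_one h1
  obtain ⟨x0⟩ := hne
  obtain ⟨F, hF, hFf⟩ := emb.exists_measurable_extend hf0 (fun _ => ⟨f0 x0⟩)
  have hFv : ∀ x : Free Γ, F x.1 = f0 x := fun x => congrFun hFf x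
  let Pr : (Γ → Fin k) → Prop := fun w => (fun g : {g : Γ // g ∈ W} => w g.1) ∈ P
  have hloc : LocP W Pr := by
    intro w w' h hw
    have h1 : (fun g : {g : Γ // g ∈ W} => w g.1) = fun g : {g : Γ // g ∈ W} => w' g.1 := by
      funext g
      exact h g.1 g.2
    show (fun g : {g : Γ // g ∈ W} => w' g.1) ∈ P
    rw [← h1]
    exact hw
  have hone : ∀ᵐ b ∂PP Γ, Pr (sg F b) := by
    rw [ae_iff] at hae' ⊢
    rw [emb.comap_apply] at hae'
    refine measure_mono_null ?_ (measure_union_null null_FS hae')
    intro b hb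
    by_cases hbF : b ∈ FS Γ
    · right
      refine ⟨⟨b, hbF⟩, ?_, rfl⟩
      intro hP
      apply hb
      show (fun g : {g : Γ // g ∈ W} => F (sh g.1 b)) ∈ P
      have h2 : (fun g : {g : Γ // g ∈ W} => F (sh g.1 b)) =
          fun g : {g : Γ // g ∈ W} => f0 (shF g.1 ⟨b, hbF⟩) := by
        funext g
        exact hFv (shF g.1 ⟨b, hbF⟩)
      rw [h2]
      exact hP
    · left
      exact hbF
  have hSol : ∀ᵐ b ∂PP Γ, Sol Pr (sg F b) := by
    have hall : ∀ g : Γ, ∀ᵐ b ∂PP Γ, Pr (sh g (sg F b)) := by
      intro g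
      have h3 := (hPR Γ g).quasiMeasurePreserving.ae hone
      filter_upwards [h3] with b hb
      have h4 : sh g (sg F b) = sg F (sh g b) := by
        funext v
        show F (sh (v * g) b) = F (sh v (sh g b))
        congr 1
        funext h
        show b (h * (v * g)) = b (h * v * g)
        rw [mul_assoc]
      rw [h4]
      exact hb
    exact ae_all_iff.2 hall
  obtain ⟨f, hf, hfae⟩ := hLIM hST Γ hAm k W Pr hloc F hF hSol X a hact μ
  exact ⟨f, hf, hfae⟩

end Pool.Agent.Y366.AM

end
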